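import Pool.Agent.Y501.SY.StmG
import Pool.Agent.Y455.SY.Pert

/-!
# Project SYG, job PERT2: positivity on null vectors is stable; lexicographic positivity
-/

set_option autoImplicit false

open Set Filter Topology MeasureTheory
open scoped Manifold ContDiff

noncomputable section

namespace Pool.Agent.Y108.SY

open Pool.Agent.Y501.SY
open Pool.Agent.Y455.SY (Q A B BA A_surj Q_eq Q_smul Q_cont Q_sum)

variable {d : ℕ} {X : Type} [TopologicalSpace X] [ChartedSpace (E d) X]

theorem null_sph (q₁ q₂ r : E d → ℝ) (h1 : ∀ (s : ℝ) (v : E d), q₁ (s • v) = s ^ 2 * q₁ v)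
    (h2 : ∀ (s : ℝ) (v : E d), q₂ (s • v) = s ^ 2 * q₂ v)
    (h3 : ∀ (s : ℝ) (v : E d), r (s • v) = s ^ 2 * r v)
    (h : ∀ v ∈ Metric.sphere (0 : E d) 1, q₁ v = 0 → q₂ v = 0 → 0 < r v) :
    ∀ v : E d, v ≠ 0 → q₁ v = 0 → q₂ v = 0 → 0 < r v := by
  intro v hv hq1 hq2
  have e : v = ‖v‖ • (‖v‖⁻¹ • v) := by
    rw [smul_smul, mul_inv_cancel₀ (norm_ne_zero_iff.2 hv), one_smul]
  rw [e, h3]
  refine mul_pos (pow_pos (norm_pos_iff.2 hv) 2) (h _ ?_ ?_ ?_)
  · rw [mem_sphere_zero_iff_norm, norm_smul, norm_inv, norm_norm,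
      inv_mul_cancel₀ (norm_ne_zero_iff.2 hv)]
  · rw [h1, hq1, mul_zero]
  · rw [h2, hq2, mul_zero]

section

variable [IsManifold (𝓡 d) ∞ X]

theorem A_ne {x : X} {p : E d} (hp : p ∈ (chartAt (E d) x).target) {v : E d} (hv : v ≠ 0) :
    A x p v ≠ 0 := by
  intro h0
  apply hv
  have h1 := BA x hp v
  rw [h0, map_zero] at h1
  exact h1.symm

theorem null_chart (σ θ τ : Form d X 2) (J : End d X) (x : X) {p : E d}
    (hp : p ∈ (chartAt (E d) x).target) :
    NullPos2 σ θ J τ ((chartAt (E d) x).symm p) ↔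
      ∀ v : E d, v ≠ 0 → Q σ J x p v = 0 → Q θ J x p v = 0 → 0 < Q τ J x p v := by
  constructor
  · intro h v hv h1 h2
    rw [Q_eq _ J x hp] at h1 h2 ⊢
    exact h _ (A_ne hp hv) h1 h2
  · intro h v hv h1 h2
    obtain ⟨w, hw⟩ := A_surj x hp v
    have h3 := h w (by
      rintro rfl
      apply hv
      rw [← hw, map_zero]
      rfl)
    rw [Q_eq σ J x hp, Q_eq θ J x hp, Q_eq τ J x hp, hw] at h3
    exact h3 h1 h2

theorem Q_cont' {Z : Type} [TopologicalSpace Z] {τ : Form d X 2} (hτ : IsSmooth τ) {J : End d X}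
    (hJ : IsAlmostComplex J) (x : X) {p v : E d} (hp : p ∈ (chartAt (E d) x).target) (z : Z) :
    ContinuousAt (fun w : (E d × Z) × E d => Q τ J x w.1.1 w.2) ((p, z), v) := by
  have h2 : ContinuousAt (fun w : (E d × Z) × E d => (w.1.1, w.2)) ((p, z), v) := by
    fun_prop
  exact ContinuousAt.comp (f := fun w : (E d × Z) × E d => (w.1.1, w.2))
    (x := ((p, z), v)) (g := fun z : E d × E d => Q τ J x z.1 z.2)
    (Q_cont hτ hJ x hp) h2

end

theorem t_PERT2 : S_PERT2 := by
  intro d X _ _ _ J hJ κ _ σ θ τ η hσ hθ hτ hη x hx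
  classical
  set c := chartAt (E d) x with hc
  have hcx : c x ∈ c.target := mem_chart_target (E d) x
  have hx' : ∀ v : E d, v ≠ 0 → Q σ J x (c x) v = 0 → Q θ J x (c x) v = 0 →
      0 < Q τ J x (c x) v := by
    rw [← null_chart σ θ τ J x hcx, c.left_inv (mem_chart_source (E d) x)]
    exact hx
  set G : (E d × (κ → ℝ)) → E d → ℝ := fun z v => Q τ J x z.1 v + ∑ k, z.2 k * Q (η k) J x z.1 v
    with hG
  have key : ∀ᶠ z : E d × (κ → ℝ) in 𝓝 (c x, 0), ∀ v ∈ Metric.sphere (0 : E d) 1,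
      (Q σ J x z.1 v = 0 → Q θ J x z.1 v = 0 → 0 < G z v) := by
    refine IsCompact.eventually_forall_of_forall_eventually
      (P := fun (z : E d × (κ → ℝ)) (v : E d) =>
        Q σ J x z.1 v = 0 → Q θ J x z.1 v = 0 → 0 < G z v) (isCompact_sphere _ _) ?_
    intro v hv
    have hv0 : v ≠ 0 := by
      rintro rfl
      simp at hv
    by_cases h1 : Q σ J x (c x) v = 0
    · by_cases h2 : Q θ J x (c x) v = 0
      · have hcont : ContinuousAt (fun w : (E d × (κ → ℝ)) × E d => G w.1 w.2)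
            ((c x, 0), v) := by
          refine (Q_cont' hτ hJ x hcx 0).add ?_
          refine tendsto_finsetSum _ fun k _ => ?_
          have h3 : ContinuousAt (fun w : (E d × (κ → ℝ)) × E d => w.1.2 k)
              ((c x, 0), v) := by
            fun_prop
          exact h3.mul (Q_cont' (hη k) hJ x hcx 0)
        have hpos : 0 < G (c x, 0) v := by
          simp only [hG, Pi.zero_apply, zero_mul, Finset.sum_const_zero, add_zero]
          exact hx' v hv0 h1 h2
        filter_upwards [hcont.eventually (lt_mem_nhds hpos)] with w hw _ _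
        exact hw
      · have h3 := (Q_cont' (v := v) hθ hJ x hcx (0 : κ → ℝ)).eventually_ne h2
        filter_upwards [h3] with w hw _ hw'
        exact absurd hw' hw
    · have h3 := (Q_cont' (v := v) hσ hJ x hcx (0 : κ → ℝ)).eventually_ne h1
      filter_upwards [h3] with w hw hw'
      exact absurd hw' hw
  rw [nhds_prod_eq, eventually_prod_iff] at key
  obtain ⟨pa, hpa, pb', hpb, hP⟩ := key
  rw [Metric.eventually_nhds_iff] at hpb
  obtain ⟨δ, hδ, hpb⟩ := hpb
  refine ⟨δ / 2, by positivity, ?_⟩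
  have h1 : ∀ᶠ y in 𝓝 x, pa (c y) :=
    (c.continuousAt (mem_chart_source (E d) x)).eventually hpa
  have h2 : ∀ᶠ y in 𝓝 x, y ∈ c.source := c.open_source.mem_nhds (mem_chart_source (E d) x)
  filter_upwards [h1, h2] with y hy hys t ht
  have hcy : c y ∈ c.target := c.map_source hys
  rw [← c.left_inv hys, null_chart _ _ _ J x hcy]
  refine null_sph _ _ _ (fun s v => Q_smul _ J x (c y) v s) (fun s v => Q_smul _ J x (c y) v s)
    (fun s v => Q_smul _ J x (c y) v s) ?_
  intro v hv
  rw [Q_sum]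
  refine hP hy (hpb ?_) v hv
  rw [dist_zero_right]
  have h3 : ‖t‖ ≤ δ / 2 := by
    rw [pi_norm_le_iff_of_nonneg (by positivity)]
    exact ht
  linarith

theorem t_NULL2 : S_NULL2 := by
  intro d X _ _ _ J hJ σ θ η hσ hθ hη F hF x hx
  classical
  set c := chartAt (E d) x with hc
  have hcx : c x ∈ c.target := mem_chart_target (E d) x
  have hF' : ∀ p ∈ c.target, c.symm p ∈ F → ∀ v : E d, Q σ J x p v = 0 → 0 ≤ Q θ J x p v := by
    intro p hp hpF v h1
    rw [Q_eq _ J x hp] at h1 ⊢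
    exact hF _ hpF _ h1
  have hx' : ∀ v : E d, v ≠ 0 → Q σ J x (c x) v = 0 → Q θ J x (c x) v = 0 →
      0 < Q η J x (c x) v := by
    rw [← null_chart σ θ η J x hcx, c.left_inv (mem_chart_source (E d) x)]
    exact hx
  set G : (E d × ℝ) → E d → ℝ := fun z v => Q θ J x z.1 v + z.2 * Q η J x z.1 v with hG
  have key : ∀ᶠ z : E d × ℝ in 𝓝 (c x, 0), ∀ v ∈ Metric.sphere (0 : E d) 1,
      (c.symm z.1 ∈ F → 0 < z.2 → Q σ J x z.1 v = 0 → 0 < G z v) := by
    refine IsCompact.eventually_forall_of_forall_eventually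
      (P := fun (z : E d × ℝ) (v : E d) =>
        c.symm z.1 ∈ F → 0 < z.2 → Q σ J x z.1 v = 0 → 0 < G z v) (isCompact_sphere _ _) ?_
    intro v hv
    have hv0 : v ≠ 0 := by
      rintro rfl
      simp at hv
    have h4 : ∀ᶠ w : (E d × ℝ) × E d in 𝓝 ((c x, 0), v), w.1.1 ∈ c.target := by
      have h5 : ContinuousAt (fun w : (E d × ℝ) × E d => w.1.1) ((c x, 0), v) := by fun_prop
      exact h5.eventually (c.open_target.mem_nhds hcx)
    by_cases h1 : Q σ J x (c x) v = 0
    · rcases lt_trichotomy (Q θ J x (c x) v) 0 with h2 | h2 | h2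
      · have h3 := (Q_cont' (v := v) hθ hJ x hcx (0 : ℝ)).eventually (gt_mem_nhds h2)
        filter_upwards [h3, h4] with w hw hw' hwF _ hwσ
        exact absurd (hF' _ hw' hwF _ hwσ) (not_le.2 hw)
      · have hpos := hx' v hv0 h1 h2
        have h3 := (Q_cont' (v := v) hη hJ x hcx (0 : ℝ)).eventually (lt_mem_nhds hpos)
        filter_upwards [h3, h4] with w hw hw' hwF hpos' hwσ
        have h6 := hF' _ hw' hwF w.2 hwσ
        have h7 := mul_pos hpos' hw
        simp only [hG]
        linarith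
      · have hcont : ContinuousAt (fun w : (E d × ℝ) × E d => G w.1 w.2) ((c x, 0), v) := by
          refine (Q_cont' hθ hJ x hcx 0).add ?_
          have h3 : ContinuousAt (fun w : (E d × ℝ) × E d => w.1.2) ((c x, 0), v) := by
            fun_prop
          exact h3.mul (Q_cont' hη hJ x hcx 0)
        have hpos : 0 < G (c x, 0) v := by
          simp only [hG, zero_mul, add_zero]
          exact h2
        filter_upwards [hcont.eventually (lt_mem_nhds hpos)] with w hw _ _ _
        exact hw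
    · have h3 := (Q_cont' (v := v) hσ hJ x hcx (0 : ℝ)).eventually_ne h1
      filter_upwards [h3] with w hw _ _ hw'
      exact absurd hw' hw
  rw [nhds_prod_eq, eventually_prod_iff] at key
  obtain ⟨pa, hpa, pb', hpb, hP⟩ := key
  rw [Metric.eventually_nhds_iff] at hpb
  obtain ⟨δ, hδ, hpb⟩ := hpb
  refine ⟨δ / 2, by positivity, ?_⟩
  have h1 : ∀ᶠ y in 𝓝 x, pa (c y) :=
    (c.continuousAt (mem_chart_source (E d) x)).eventually hpa
  have h2 : ∀ᶠ y in 𝓝 x, y ∈ c.source := c.open_source.mem_nhds (mem_chart_source (E d) x)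
  filter_upwards [h1, h2] with y hy hys hyF ε hε hεδ
  have hcy : c y ∈ c.target := c.map_source hys
  have hleft : c.symm (c y) = y := c.left_inv hys
  have hsph : ∀ v : E d, v ≠ 0 → Q σ J x (c y) v = 0 → Q σ J x (c y) v = 0 →
      0 < Q (θ + ε • η) J x (c y) v := by
    refine null_sph _ _ _ (fun s v => Q_smul _ J x (c y) v s) (fun s v => Q_smul _ J x (c y) v s)
      (fun s v => Q_smul _ J x (c y) v s) ?_
    intro v hv hσv _
    have h3 : Q (θ + ε • η) J x (c y) v = Q θ J x (c y) v + ε * Q η J x (c y) v := by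
      have h4 := Q_sum (κ := Unit) θ (fun _ => η) (fun _ => ε) J x (c y) v
      simpa using h4
    rw [h3]
    refine hP hy (hpb ?_) v hv (by rw [hleft]; exact hyF) hε hσv
    rw [dist_zero_right, Real.norm_eq_abs, abs_of_pos hε]
    linarith
  have hfin : ∀ z : X, z = y → ∀ v : TangentSpace (𝓡 d) z, v ≠ 0 → σ z ![v, J z v] = 0 →
      0 < (θ + ε • η) z ![v, J z v] := by
    intro z hz
    have hz' : z = c.symm (c y) := hz.trans hleft.symm
    subst hz'
    intro v hv h5
    exact (null_chart σ σ (θ + ε • η) J x hcy).2 hsph v hv h5 h5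
  exact hfin y rfl

end Pool.Agent.Y108.SY
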